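import Pool.Agent.H34KM.Fam

/-!
# Consequences and equivalences
-/

set_option autoImplicit false

open Finset

namespace Pool.Agent.H34KM

/-- The cube property with radius `ρ`: for any two points `p`, `q` of `S` there are vectors
`w_1, …, w_k` of Euclidean length at most `ρ` such that the `2^k` points
`(p + q) / 2 ± w_1 ± ⋯ ± w_k` belong to `S`. -/
def Cubical {d : ℕ} (S : Set (Fin d → ℝ)) (ρ : ℝ) : Prop :=
  ∀ p ∈ S, ∀ q ∈ S, ∃ (k : ℕ) (w : Fin k → Fin d → ℝ), (∀ i, ∑ c, w i c ^ 2 ≤ ρ ^ 2) ∧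
    ∀ ε : Fin k → ℝ, (∀ i, ε i = 1 ∨ ε i = -1) →
      (fun c => (p c + q c) / 2 + ∑ i, ε i * w i c) ∈ S

theorem Cubical.cubN {d : ℕ} {S : Set (Fin d → ℝ)} {ρ : ℝ} (h : Cubical S ρ) : CubN S ρ ⊤ := by
  intro p hp q hq
  obtain ⟨k, w, h1, h2⟩ := h p hp q hq
  exact ⟨k, w, le_top, h1, h2⟩

theorem CubN.cubical {d : ℕ} {S : Set (Fin d → ℝ)} {ρ : ℝ} {n : ℕ∞} (h : CubN S ρ n) :
    Cubical S ρ := by
  intro p hp q hq
  obtain ⟨k, w, -, h1, h2⟩ := h p hp q hq
  exact ⟨k, w, h1, h2⟩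

theorem geom_le_two (m : ℕ) : ∑ j ∈ range m, (1:ℝ) / 2 ^ j ≤ 2 := by
  have h : ∀ m : ℕ, ∑ j ∈ range m, (1:ℝ) / 2 ^ j = 2 - 2 / 2 ^ m := by
    intro m
    induction m with
    | zero => norm_num
    | succ m ih =>
      rw [Finset.sum_range_succ, ih, pow_succ]
      field_simp
      ring
  rw [h m]
  have : (0:ℝ) ≤ 2 / 2 ^ m := by positivity
  linarith

theorem geom_le_four (m : ℕ) : ∑ j ∈ range m, (1 + (j:ℝ)) / 2 ^ j ≤ 4 := by
  have h : ∀ m : ℕ, ∑ j ∈ range m, (1 + (j:ℝ)) / 2 ^ j = 4 - (2 * m + 4) / 2 ^ m := by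
    intro m
    induction m with
    | zero => norm_num
    | succ m ih =>
      rw [Finset.sum_range_succ, ih, pow_succ]
      push_cast
      field_simp
      ring
  rw [h m]
  have : (0:ℝ) ≤ (2 * m + 4) / 2 ^ m := by positivity
  linarith

/-- (1) Transfer. -/
theorem transfer (d : ℕ) (B : ℝ) (hB0 : 0 ≤ B)
    (hB : ∀ (k : ℕ) (w : Fin k → Fin d → ℝ), InBall w → HasSigning w B)
    (S : Set (Fin d → ℝ)) (ρ : ℝ) (hρ : 0 < ρ) (hS : Cubical S ρ) (x : Fin d → ℝ)
    (hx : x ∈ convexHull ℝ S) (η : ℝ) (hη : 0 < η) : ∃ s ∈ S, ∀ c, |s c - x c| ≤ 2 * B * ρ + η := by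
  obtain ⟨s, hs, hsb⟩ := rounding S ρ hρ ⊤ hS.cubN (fun _ => B) (fun _ k _ u hu => hB k u hu)
    (2 * B) (fun m => by
      have h1 : ∑ j ∈ range m, B / 2 ^ j = B * ∑ j ∈ range m, (1:ℝ) / 2 ^ j := by
        rw [Finset.mul_sum]
        exact Finset.sum_congr rfl fun j _ => by ring
      rw [h1, mul_comm 2 B]
      exact mul_le_mul_of_nonneg_left (geom_le_two m) hB0) x hx η hη
  refine ⟨s, hs, fun c => (hsb c).trans (le_of_eq ?_)⟩
  ring

theorem one_le_L (t : ℕ) : (1:ℝ) ≤ 1 + Real.log (1 + (t : ℝ)) := by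
  have : 0 ≤ Real.log (1 + (t : ℝ)) := Real.log_nonneg (by
    have : (0:ℝ) ≤ (t : ℝ) := by positivity
    linarith)
  linarith

theorem L_mono {s t : ℕ} (h : s ≤ t) :
    (1 + Real.log (1 + (s : ℝ))) ^ (1 / 4 : ℝ) ≤ (1 + Real.log (1 + (t : ℝ))) ^ (1 / 4 : ℝ) := by
  have h1 : (s : ℝ) ≤ t := by exact_mod_cast h
  have h2 : (0:ℝ) ≤ s := by positivity
  refine Real.rpow_le_rpow (by linarith [one_le_L s]) ?_ (by norm_num)
  have := Real.log_le_log (by linarith : (0:ℝ) < 1 + (s:ℝ)) (by linarith : 1 + (s : ℝ) ≤ 1 + t)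
  linarith

/-- The bound for `min (2^j n) d`. -/
theorem L_level (n d j : ℕ) :
    (1 + Real.log (1 + ((min (2 ^ j * n) d : ℕ) : ℝ))) ^ (1 / 4 : ℝ) ≤
      (1 + (j : ℝ)) * (1 + Real.log (1 + ((min n d : ℕ) : ℝ))) ^ (1 / 4 : ℝ) := by
  set t : ℕ := min n d with ht
  have h1 : min (2 ^ j * n) d ≤ 2 ^ j * t := by
    rcases le_total n d with h | h
    · rw [ht, min_eq_left h]; exact min_le_left _ _
    · rw [ht, min_eq_right h]
      exact (min_le_right _ _).trans (Nat.le_mul_of_pos_left d (by positivity))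
  refine (L_mono h1).trans ?_
  have ht0 : (0:ℝ) ≤ (t:ℝ) := by positivity
  have h2 : Real.log (1 + ((2 ^ j * t : ℕ) : ℝ)) ≤ j + Real.log (1 + (t : ℝ)) := by
    have h3 : (1:ℝ) + ((2 ^ j * t : ℕ) : ℝ) ≤ 2 ^ j * (1 + t) := by
      push_cast
      have : (1:ℝ) ≤ 2 ^ j := one_le_pow₀ (by norm_num)
      nlinarith
    have h4 := Real.log_le_log (by positivity) h3
    rw [Real.log_mul (by positivity) (by positivity), Real.log_pow] at h4
    have h5 : Real.log 2 ≤ 1 := by linarith [Real.log_two_lt_d9]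
    have h6 : (j:ℝ) * Real.log 2 ≤ j := by
      have : (0:ℝ) ≤ j := by positivity
      nlinarith
    linarith
  have hL := one_le_L t
  have hj : (0:ℝ) ≤ j := by positivity
  have h7 : 1 + Real.log (1 + ((2 ^ j * t : ℕ) : ℝ)) ≤ (1 + (j:ℝ)) * (1 + Real.log (1 + (t:ℝ))) := by
    nlinarith
  have h8 := one_le_L (2 ^ j * t)
  refine (Real.rpow_le_rpow (by linarith) h7 (by norm_num)).trans ?_
  rw [Real.mul_rpow (by linarith) (by linarith)]
  refine mul_le_mul_of_nonneg_right ?_ (Real.rpow_nonneg (by linarith) _)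
  calc (1 + (j:ℝ)) ^ (1 / 4 : ℝ) ≤ (1 + (j:ℝ)) ^ (1 : ℝ) :=
        Real.rpow_le_rpow_of_exponent_le (by linarith) (by norm_num)
    _ = 1 + j := Real.rpow_one _

/-- (2) The unconditional bound for sets with the cube property. -/
theorem cub_uncond (C : ℝ) (hC0 : 0 ≤ C)
    (hC : ∀ (n d : ℕ) (v : Fin n → Fin d → ℝ), InBall v →
      HasSigning v (C * (1 + Real.log (1 + ((min n d : ℕ) : ℝ))) ^ (1 / 4 : ℝ)))
    (d : ℕ) (S : Set (Fin d → ℝ)) (ρ : ℝ) (hρ : 0 < ρ) (hS : Cubical S ρ) (x : Fin d → ℝ)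
    (hx : x ∈ convexHull ℝ S) :
    ∃ s ∈ S, ∀ c, |s c - x c| ≤ (2 * C + 1) * ρ * (1 + Real.log (1 + (d : ℝ))) ^ (1 / 4 : ℝ) := by
  have hL1 : (1:ℝ) ≤ (1 + Real.log (1 + (d : ℝ))) ^ (1 / 4 : ℝ) :=
    Real.one_le_rpow (one_le_L d) (by norm_num)
  obtain ⟨s, hs, hsb⟩ := transfer d (C * (1 + Real.log (1 + (d : ℝ))) ^ (1 / 4 : ℝ))
    (by positivity) (fun k w hw => by
      obtain ⟨ε, h1, h2⟩ := hC k d w hw
      exact ⟨ε, h1, fun c => (h2 c).trans
        (mul_le_mul_of_nonneg_left (L_mono (min_le_right _ _)) hC0)⟩) S ρ hρ hS x hx ρ hρ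
  refine ⟨s, hs, fun c => (hsb c).trans ?_⟩
  nlinarith

/-- The convex hull of the indicator functions of the members of a family. -/
def Hull {α : Type} [DecidableEq α] (F : Set (Finset α)) : Set (α → ℝ) :=
  convexHull ℝ {y | ∃ A ∈ F, y = fun j => if j ∈ A then 1 else 0}

/-- Some member `A` of the family has `|∑_{j ∈ A} v_j - ∑_j x_j v_j| ≤ R` in all coordinates. -/
def Rounds {α : Type} [Fintype α] {d : ℕ} (v : α → Fin d → ℝ) (F : Set (Finset α))
    (x : α → ℝ) (R : ℝ) : Prop :=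
  ∃ A ∈ F, ∀ c, |∑ j ∈ A, v j c - ∑ j, x j * v j c| ≤ R

variable {α : Type} [Fintype α] [DecidableEq α]

theorem hull_sums {d : ℕ} (v : α → Fin d → ℝ) (F : Set (Finset α)) (x : α → ℝ) (hx : x ∈ Hull F) :
    (fun c => ∑ j, x j * v j c) ∈ convexHull ℝ (Sums v F) := by
  let L : (α → ℝ) →ₗ[ℝ] (Fin d → ℝ) :=
    { toFun := fun y c => ∑ j, y j * v j c
      map_add' := fun y z => by
        funext c
        simp only [Pi.add_apply, add_mul, Finset.sum_add_distrib]
      map_smul' := fun a y => by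
        funext c
        simp only [Pi.smul_apply, smul_eq_mul, RingHom.id_apply, Finset.mul_sum, mul_assoc] }
  have h1 : L '' {y | ∃ A ∈ F, y = fun j => if j ∈ A then (1:ℝ) else 0} = Sums v F := by
    ext p
    constructor
    · rintro ⟨_, ⟨A, hA, rfl⟩, rfl⟩
      refine ⟨A, hA, ?_⟩
      funext c
      show ∑ j, (if j ∈ A then (1:ℝ) else 0) * v j c = _
      simp only [ite_mul, one_mul, zero_mul]
      rw [Finset.sum_ite_mem, Finset.univ_inter]
    · rintro ⟨A, hA, rfl⟩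
      refine ⟨_, ⟨A, hA, rfl⟩, ?_⟩
      funext c
      show ∑ j, (if j ∈ A then (1:ℝ) else 0) * v j c = _
      simp only [ite_mul, one_mul, zero_mul]
      rw [Finset.sum_ite_mem, Finset.univ_inter]
  have h2 : L x ∈ L '' (Hull F) := Set.mem_image_of_mem _ hx
  unfold Hull at h2
  rw [LinearMap.image_convexHull, h1] at h2
  exact h2

/-- (3) The unconditional bound for families with the block exchange property. -/
theorem fam_uncond (C : ℝ) (hC0 : 0 ≤ C)
    (hC : ∀ (n d : ℕ) (v : Fin n → Fin d → ℝ), InBall v →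
      HasSigning v (C * (1 + Real.log (1 + ((min n d : ℕ) : ℝ))) ^ (1 / 4 : ℝ)))
    (d b : ℕ) (hb : 1 ≤ b) (v : α → Fin d → ℝ) (hv : ∀ j, ∑ c, v j c ^ 2 ≤ 1)
    (F : Set (Finset α)) (hF : BlockExchange b F) (x : α → ℝ) (hx : x ∈ Hull F) :
    Rounds v F x ((2 * C + 1) * b *
      (1 + Real.log (1 + ((min (Fintype.card α) d : ℕ) : ℝ))) ^ (1 / 4 : ℝ)) := by
  set n := Fintype.card α with hn
  set L : ℝ := (1 + Real.log (1 + ((min n d : ℕ) : ℝ))) ^ (1 / 4 : ℝ) with hL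
  have hL1 : (1:ℝ) ≤ L := Real.one_le_rpow (one_le_L _) (by norm_num)
  have hb1 : (1:ℝ) ≤ b := by exact_mod_cast hb
  obtain ⟨s, ⟨A, hA, hsA⟩, hsb⟩ := rounding (Sums v F) ((b:ℝ) / 2) (by positivity) n
    (sums_cub v hv b F hF) (fun j => C * ((1 + (j:ℝ)) * L)) (fun j k hk u hu => by
      obtain ⟨ε, h1, h2⟩ := hC k d u hu
      refine ⟨ε, h1, fun c => (h2 c).trans (mul_le_mul_of_nonneg_left ?_ hC0)⟩
      have hk' : k ≤ 2 ^ j * n := by exact_mod_cast hk
      exact (L_mono (min_le_min_right d hk')).trans (L_level n d j)) (4 * C * L) (fun m => by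
      have h1 : ∑ j ∈ range m, C * ((1 + (j:ℝ)) * L) / 2 ^ j =
          (C * L) * ∑ j ∈ range m, (1 + (j:ℝ)) / 2 ^ j := by
        rw [Finset.mul_sum]
        exact Finset.sum_congr rfl fun j _ => by ring
      rw [h1, mul_assoc 4 C L, mul_comm (4:ℝ) (C * L)]
      exact mul_le_mul_of_nonneg_left (geom_le_four m) (by positivity)) _ (hull_sums v F x hx) 1
      one_pos
  refine ⟨A, hA, fun c => ?_⟩
  have h1 := hsb c
  rw [hsA] at h1
  refine h1.trans ?_
  have h2 : (1:ℝ) ≤ b * L := by nlinarith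
  nlinarith

/-- Transfer of a constant bound to families with the block exchange property. -/
theorem fam_transfer (c : ℝ)
    (h : ∀ (d : ℕ) (S : Set (Fin d → ℝ)) (ρ : ℝ), 0 < ρ → Cubical S ρ → ∀ x ∈ convexHull ℝ S,
      ∃ s ∈ S, ∀ i, |s i - x i| ≤ c * ρ)
    (d b : ℕ) (hb : 1 ≤ b) (v : α → Fin d → ℝ) (hv : ∀ j, ∑ c, v j c ^ 2 ≤ 1)
    (F : Set (Finset α)) (hF : BlockExchange b F) (x : α → ℝ) (hx : x ∈ Hull F) :
    Rounds v F x (c * b) := by
  have hb1 : (1:ℝ) ≤ b := by exact_mod_cast hb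
  obtain ⟨s, ⟨A, hA, hsA⟩, hsb⟩ := h d (Sums v F) ((b:ℝ) / 2) (by positivity)
    (sums_cub v hv b F hF).cubical _ (hull_sums v F x hx)
  refine ⟨A, hA, fun i => ?_⟩
  have h1 := hsb i
  rw [hsA] at h1
  have h0 : 0 ≤ c * ((b:ℝ) / 2) := (abs_nonneg _).trans h1
  refine h1.trans ?_
  linarith

/-! ### The partition matroid -/

/-- Bases: one element from each pair. -/
def PB (n : ℕ) (B : Set (Fin n × Bool)) : Prop := ∃ s : Fin n → Bool, B = Set.range fun i => (i, s i)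

theorem mem_rng {n : ℕ} (s : Fin n → Bool) (a : Fin n × Bool) :
    a ∈ Set.range (fun i => (i, s i)) ↔ a.2 = s a.1 := by
  constructor
  · rintro ⟨i, rfl⟩; rfl
  · intro h
    exact ⟨a.1, Prod.ext rfl h.symm⟩

theorem pb_exchange (n : ℕ) : Matroid.ExchangeProperty (PB n) := by
      rintro _ _ ⟨s, rfl⟩ ⟨t, rfl⟩ a ⟨ha1, ha2⟩
      rw [mem_rng] at ha1 ha2
      refine ⟨(a.1, t a.1), ⟨(mem_rng _ _).2 rfl, fun h => ?_⟩, Function.update s a.1 (t a.1), ?_⟩
      · rw [mem_rng] at h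
        exact ha2 (by rw [ha1]; exact h.symm)
      · ext x
        rw [Set.mem_insert_iff, Set.mem_sdiff, mem_rng, mem_rng, Set.mem_singleton_iff]
        by_cases hx : x.1 = a.1
        · rw [hx, Function.update_self]
          constructor
          · rintro (h | ⟨h1, h2⟩)
            · rw [h]
            · exact absurd (Prod.ext hx (h1.trans ha1.symm)) h2
          · intro h
            exact Or.inl (Prod.ext hx h)
        · rw [Function.update_of_ne hx]
          constructor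
          · rintro (h | ⟨h1, h2⟩)
            · exact absurd (by rw [h]) hx
            · exact h1
          · intro h
            exact Or.inr ⟨h, fun h2 => hx (by rw [h2])⟩

/-- The matroid of the transversals of `n` pairs. -/
def pairMatroid (n : ℕ) : Matroid (Fin n × Bool) :=
  Matroid.ofIsBaseOfFinite (E := Set.univ) Set.finite_univ (PB n) ⟨_, fun _ => false, rfl⟩
    (pb_exchange n) (fun B _ => Set.subset_univ B)

theorem pairMatroid_isBase (n : ℕ) (B : Set (Fin n × Bool)) : (pairMatroid n).IsBase B ↔ PB n B :=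
  Iff.rfl

theorem pairMatroid_sbo (n : ℕ) : StronglyBaseOrderable (pairMatroid n) := by
  intro A B hA hB
  rw [pairMatroid_isBase] at hA hB
  obtain ⟨s, rfl⟩ := hA
  obtain ⟨t, rfl⟩ := hB
  refine ⟨fun a => (a.1, t a.1), ⟨?_, ?_, ?_⟩, fun X hX => ?_⟩
  · intro a _
    exact ⟨a.1, rfl⟩
  · intro a ha b hb hab
    rw [mem_rng] at ha hb
    have h1 : a.1 = b.1 := (Prod.ext_iff.1 hab).1
    exact Prod.ext h1 (by rw [ha, hb, h1])
  · intro b hb
    rw [mem_rng] at hb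
    exact ⟨(b.1, s b.1), (mem_rng _ _).2 rfl, Prod.ext rfl hb.symm⟩
  · classical
    rw [pairMatroid_isBase]
    refine ⟨fun i => if (i, s i) ∈ X then t i else s i, ?_⟩
    ext a
    rw [mem_rng, Set.mem_union, Set.mem_sdiff, mem_rng]
    constructor
    · rintro (⟨h1, h2⟩ | ⟨y, hy, rfl⟩)
      · have : (a.1, s a.1) ∉ X := by rwa [← h1]
        rw [if_neg this, h1]
      · have h1 := (mem_rng _ _).1 (hX hy)
        have : (y.1, s y.1) ∈ X := by rwa [← h1]
        simp only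
        rw [if_pos this]
    · intro h
      by_cases hc : (a.1, s a.1) ∈ X
      · right
        rw [if_pos hc] at h
        exact ⟨(a.1, s a.1), hc, Prod.ext rfl h.symm⟩
      · left
        rw [if_neg hc] at h
        exact ⟨h, by rwa [← h] at hc⟩

theorem bases_pair (n : ℕ) : Bases (pairMatroid n) =
    Transversals (fun (i : Fin n) (a : Fin n × Bool) => a.1 = i) := by
  ext T
  show (pairMatroid n).IsBase (T : Set (Fin n × Bool)) ↔ _
  rw [pairMatroid_isBase]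
  constructor
  · rintro ⟨s, hs⟩
    refine ⟨fun i => (i, s i), fun i j hij => congrArg Prod.fst hij, fun i => rfl, ?_⟩
    ext a
    rw [← Finset.mem_coe, hs, Finset.mem_image]
    simp
  · rintro ⟨g, hg, hR, rfl⟩
    refine ⟨fun i => (g i).2, ?_⟩
    ext a
    rw [Finset.mem_coe, Finset.mem_image, Set.mem_range]
    constructor
    · rintro ⟨i, -, rfl⟩
      exact ⟨i, Prod.ext (hR i).symm rfl⟩
    · rintro ⟨i, rfl⟩
      exact ⟨i, mem_univ _, Prod.ext (hR i) rfl⟩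

/-- Komlós's bound from rounding in the transversals of pairs. -/
theorem komlos_of_pairs (n d : ℕ) (v : Fin n → Fin d → ℝ) (R : ℝ) (hv : InBall v)
    (h : ∀ u : Fin n × Bool → Fin d → ℝ, (∀ j, ∑ c, u j c ^ 2 ≤ 1) →
      ∀ x ∈ Hull (Transversals (fun (i : Fin n) (a : Fin n × Bool) => a.1 = i)),
        Rounds u (Transversals (fun (i : Fin n) (a : Fin n × Bool) => a.1 = i)) x R) :
    HasSigning v R := by
  set F := Transversals (fun (i : Fin n) (a : Fin n × Bool) => a.1 = i) with hF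
  have hmem : ∀ b : Bool, (univ.image fun i : Fin n => (i, b)) ∈ F := fun b =>
    ⟨fun i => (i, b), fun i j hij => congrArg Prod.fst hij, fun i => rfl, rfl⟩
  have hx : (fun _ : Fin n × Bool => (1 / 2 : ℝ)) ∈ Hull F := by
    have hc := convex_convexHull ℝ {y : Fin n × Bool → ℝ | ∃ A ∈ F, y = fun j => if j ∈ A then 1 else 0}
    have h1 := subset_convexHull ℝ {y : Fin n × Bool → ℝ | ∃ A ∈ F, y = fun j => if j ∈ A then 1 else 0}
      ⟨_, hmem true, rfl⟩
    have h2 := subset_convexHull ℝ {y : Fin n × Bool → ℝ | ∃ A ∈ F, y = fun j => if j ∈ A then 1 else 0}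
      ⟨_, hmem false, rfl⟩
    have h3 := hc h1 h2 (by norm_num : (0:ℝ) ≤ 1 / 2) (by norm_num : (0:ℝ) ≤ 1 / 2) (by norm_num)
    have h4 : (fun _ : Fin n × Bool => (1 / 2 : ℝ)) =
        (1 / 2 : ℝ) • (fun j : Fin n × Bool => if j ∈ univ.image (fun i : Fin n => (i, true)) then
          (1:ℝ) else 0) + (1 / 2 : ℝ) • (fun j : Fin n × Bool => if j ∈ univ.image
          (fun i : Fin n => (i, false)) then (1:ℝ) else 0) := by
      funext j
      obtain ⟨i, b⟩ := j
      cases b <;> simp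
    rw [h4]
    exact h3
  obtain ⟨A, ⟨g, hg, hR, rfl⟩, hb⟩ := h (fun a c => (if a.2 then 1 else -1) * v a.1 c) (fun a => by
    have h1 : ∀ c, ((if a.2 then (1:ℝ) else -1) * v a.1 c) ^ 2 = v a.1 c ^ 2 := by
      intro c
      split_ifs <;> ring
    simp_rw [h1]
    exact hv a.1) _ hx
  refine ⟨fun i => if (g i).2 then 1 else -1, fun i => by
    dsimp only
    split_ifs <;> simp, fun c => ?_⟩
  have h1 := hb c
  rw [Finset.sum_image (fun i _ j _ hij => hg hij)] at h1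
  have h2 : ∑ j : Fin n × Bool, 1 / 2 * ((if j.2 then (1:ℝ) else -1) * v j.1 c) = 0 := by
    rw [Fintype.sum_prod_type]
    refine Finset.sum_eq_zero fun i _ => ?_
    rw [Fintype.sum_bool]
    simp
  rw [h2, sub_zero] at h1
  have h3 : ∑ i, (if (g i).2 = true then (1:ℝ) else -1) * v (g i).1 c =
      ∑ i, (if (g i).2 = true then (1:ℝ) else -1) * v i c :=
    Finset.sum_congr rfl fun i _ => by rw [hR i]
  rw [h3] at h1
  exact h1

end Pool.Agent.H34KM
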