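import Pool.Agent.H34KM.Merge

/-!
# Families of sets with the block exchange property
-/

set_option autoImplicit false

open Finset

namespace Pool.Agent.H34KM

variable {α : Type} [Fintype α] [DecidableEq α]

/-- Any two members of the family can be exchanged in blocks of at most `b` elements: the symmetric
difference `A ∆ B` has a partition with parts of size at most `b` such that `A ∆ U` belongs to the
family for every union `U` of parts. -/
def BlockExchange (b : ℕ) (F : Set (Finset α)) : Prop :=
  ∀ A ∈ F, ∀ B ∈ F, ∃ P : Finpartition (symmDiff A B),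
    (∀ T ∈ P.parts, T.card ≤ b) ∧ ∀ Q ⊆ P.parts, symmDiff A (Q.sup id) ∈ F

/-- The sums over the members of a family. -/
def Sums {d : ℕ} (v : α → Fin d → ℝ) (F : Set (Finset α)) : Set (Fin d → ℝ) :=
  {p | ∃ A ∈ F, p = fun c => ∑ j ∈ A, v j c}

omit [Fintype α] [DecidableEq α] in
theorem block_norm {d : ℕ} (v : α → Fin d → ℝ) (hv : ∀ j, ∑ c, v j c ^ 2 ≤ 1) (T : Finset α)
    (b : ℕ) (hT : T.card ≤ b) (g : α → ℝ) (hg : ∀ j, |g j| ≤ 1 / 2) :
    ∑ c, (∑ j ∈ T, g j * v j c) ^ 2 ≤ ((b : ℝ) / 2) ^ 2 := by
  have h1 : ∀ c, (∑ j ∈ T, g j * v j c) ^ 2 ≤ T.card * ∑ j ∈ T, (1 / 4) * v j c ^ 2 := by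
    intro c
    refine sq_sum_le_card_mul_sum_sq.trans ?_
    refine mul_le_mul_of_nonneg_left (Finset.sum_le_sum fun j _ => ?_) (by positivity)
    rw [mul_pow]
    refine mul_le_mul_of_nonneg_right ?_ (sq_nonneg _)
    have h2 := hg j
    rw [← sq_abs]
    nlinarith [abs_nonneg (g j)]
  calc ∑ c, (∑ j ∈ T, g j * v j c) ^ 2 ≤ ∑ c, (T.card : ℝ) * ∑ j ∈ T, (1 / 4) * v j c ^ 2 :=
        Finset.sum_le_sum fun c _ => h1 c
    _ = (T.card : ℝ) * ∑ j ∈ T, (1 / 4) * ∑ c, v j c ^ 2 := by
        rw [← Finset.mul_sum, Finset.sum_comm]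
        congr 1
        refine Finset.sum_congr rfl fun j _ => ?_
        rw [Finset.mul_sum]
    _ ≤ (T.card : ℝ) * ∑ _j ∈ T, (1 / 4 : ℝ) := by
        refine mul_le_mul_of_nonneg_left (Finset.sum_le_sum fun j _ => ?_) (by positivity)
        have := hv j
        linarith
    _ = (T.card : ℝ) ^ 2 / 4 := by
        rw [Finset.sum_const, nsmul_eq_mul]; ring
    _ ≤ ((b : ℝ) / 2) ^ 2 := by
        have h3 : (T.card : ℝ) ≤ b := by exact_mod_cast hT
        have h4 : (0:ℝ) ≤ T.card := by positivity
        rw [div_pow]
        have : (T.card : ℝ) ^ 2 ≤ (b:ℝ) ^ 2 := pow_le_pow_left₀ h4 h3 2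
        norm_num
        linarith

theorem sums_cub {d : ℕ} (v : α → Fin d → ℝ) (hv : ∀ j, ∑ c, v j c ^ 2 ≤ 1) (b : ℕ)
    (F : Set (Finset α)) (hF : BlockExchange b F) :
    CubN (Sums v F) ((b : ℝ) / 2) (Fintype.card α) := by
  rintro _ ⟨A, hA, rfl⟩ _ ⟨B, hB, rfl⟩
  obtain ⟨P, hPb, hPF⟩ := hF A hA B hB
  set g : α → ℝ := fun j => ((if j ∈ B then 1 else 0) - (if j ∈ A then 1 else 0)) / 2 with hg
  have hgb : ∀ j, |g j| ≤ 1 / 2 := by
    intro j
    simp only [hg]
    split_ifs <;> norm_num
  let e : Fin P.parts.card ≃ P.parts := P.parts.equivFin.symm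
  refine ⟨P.parts.card, fun i c => ∑ j ∈ (e i : Finset α), g j * v j c, ?_, ?_, ?_⟩
  · exact_mod_cast P.card_parts_le_card.trans (Finset.card_le_univ _)
  · intro i
    exact block_norm v hv _ b (hPb _ (e i).2) g hgb
  · intro ε hε
    set Q : Finset (Finset α) := P.parts.filter (fun T => ∃ h : T ∈ P.parts, ε (e.symm ⟨T, h⟩) = 1)
      with hQ
    have hQP : Q ⊆ P.parts := Finset.filter_subset _ _
    set U : Finset α := Q.sup id with hU
    refine ⟨symmDiff A U, hPF Q hQP, ?_⟩
    have hUsub : U ⊆ symmDiff A B := by
      intro j hj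
      rw [hU, Finset.mem_sup] at hj
      obtain ⟨T, hT, hjT⟩ := hj
      rw [← P.biUnion_parts, Finset.mem_biUnion]
      exact ⟨T, hQP hT, hjT⟩
    set e' : α → ℝ := fun j => if j ∈ U then 1 else -1 with he'
    have hsign : ∀ T (hT : T ∈ P.parts), ∀ j ∈ T, e' j = ε (e.symm ⟨T, hT⟩) := by
      intro T hT j hj
      simp only [he']
      by_cases h1 : ε (e.symm ⟨T, hT⟩) = 1
      · rw [if_pos, h1]
        rw [hU, Finset.mem_sup]
        exact ⟨T, by rw [hQ, Finset.mem_filter]; exact ⟨hT, hT, h1⟩, hj⟩
      · rw [if_neg, (hε _).resolve_left h1]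
        intro h2
        rw [hU, Finset.mem_sup] at h2
        obtain ⟨T', hT', hjT'⟩ := h2
        rw [hQ, Finset.mem_filter] at hT'
        obtain ⟨hT1, hT2, hT3⟩ := hT'
        have : T' = T := P.disjoint.elim_finset hT1 hT j hjT' hj
        subst this
        exact h1 hT3
    funext c
    have hkey : ∑ i, ε i * ∑ j ∈ (e i : Finset α), g j * v j c =
        ∑ j ∈ symmDiff A B, e' j * (g j * v j c) := by
      have h1 : ∑ i, ε i * ∑ j ∈ (e i : Finset α), g j * v j c =
          ∑ i, ∑ j ∈ (e i : Finset α), e' j * (g j * v j c) := by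
        refine Finset.sum_congr rfl fun i _ => ?_
        rw [Finset.mul_sum]
        refine Finset.sum_congr rfl fun j hj => ?_
        have := hsign (e i) (e i).2 j hj
        rw [this]
        congr 2
        simp
      rw [h1, e.sum_comp (fun T : P.parts => ∑ j ∈ (T : Finset α), e' j * (g j * v j c)),
        Finset.sum_coe_sort P.parts (fun T => ∑ j ∈ T, e' j * (g j * v j c))]
      conv_rhs => rw [← P.biUnion_parts]
      rw [Finset.sum_biUnion]
      · rfl
      · exact P.disjoint
    simp only
    rw [hkey]
    have hind : ∀ W : Finset α, ∑ j ∈ W, v j c = ∑ j, (if j ∈ W then 1 else 0) * v j c := by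
      intro W
      rw [← Finset.sum_filter_add_sum_filter_not univ (fun j => j ∈ W)]
      have h1 : ∑ j ∈ univ.filter (fun j => j ∈ W), (if j ∈ W then (1:ℝ) else 0) * v j c =
          ∑ j ∈ W, v j c := by
        rw [Finset.filter_mem_eq_inter, Finset.univ_inter]
        exact Finset.sum_congr rfl fun j hj => by rw [if_pos hj, one_mul]
      have h2 : ∑ j ∈ univ.filter (fun j => j ∉ W), (if j ∈ W then (1:ℝ) else 0) * v j c = 0 := by
        refine Finset.sum_eq_zero fun j hj => ?_
        rw [if_neg (Finset.mem_filter.1 hj).2, zero_mul]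
      rw [h1, h2, add_zero]
    have hsd : ∑ j ∈ symmDiff A B, e' j * (g j * v j c) =
        ∑ j, (if j ∈ symmDiff A B then 1 else 0) * (e' j * (g j * v j c)) := by
      rw [← Finset.sum_filter_add_sum_filter_not univ (fun j => j ∈ symmDiff A B)]
      have h1 : ∑ j ∈ univ.filter (fun j => j ∈ symmDiff A B),
          (if j ∈ symmDiff A B then (1:ℝ) else 0) * (e' j * (g j * v j c)) =
          ∑ j ∈ symmDiff A B, (e' j * (g j * v j c)) := by
        rw [Finset.filter_mem_eq_inter, Finset.univ_inter]
        exact Finset.sum_congr rfl fun j hj => by rw [if_pos hj, one_mul]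
      have h2 : ∑ j ∈ univ.filter (fun j => j ∉ symmDiff A B),
          (if j ∈ symmDiff A B then (1:ℝ) else 0) * (e' j * (g j * v j c)) = 0 := by
        refine Finset.sum_eq_zero fun j hj => ?_
        rw [if_neg (Finset.mem_filter.1 hj).2, zero_mul]
      rw [h1, h2, add_zero]
    rw [hsd, hind A, hind B, hind (symmDiff A U), ← Finset.sum_add_distrib, Finset.sum_div,
      ← Finset.sum_add_distrib]
    refine Finset.sum_congr rfl fun j _ => ?_
    have hjU : j ∈ U → j ∈ symmDiff A B := fun h => hUsub h
    simp only [hg, he', Finset.mem_symmDiff] at hjU ⊢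
    by_cases h1 : j ∈ A <;> by_cases h2 : j ∈ B <;> by_cases h3 : j ∈ U <;>
      simp [h1, h2, h3] at hjU ⊢ <;> ring

omit [Fintype α] in
/-- Pairwise exchange gives the block exchange property with `b = 2`. -/
theorem of_pairs (F : Set (Finset α)) (h : ∀ A ∈ F, ∀ B ∈ F, ∃ ψ : α → α,
    Set.BijOn ψ (↑(A \ B) : Set α) (↑(B \ A) : Set α) ∧
      ∀ X ⊆ A \ B, (A \ X) ∪ X.image ψ ∈ F) : BlockExchange 2 F := by
  intro A hA B hB
  obtain ⟨ψ, hψ, hX⟩ := h A hA B hB
  set blk : α → Finset α := fun a => {a, ψ a} with hblk
  have hψm : ∀ a ∈ A \ B, ψ a ∈ B \ A := fun a ha => by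
    have := hψ.mapsTo (Finset.mem_coe.2 ha)
    exact Finset.mem_coe.1 this
  have hdisj : ∀ a ∈ A \ B, ∀ a' ∈ A \ B, ∀ x, x ∈ blk a → x ∈ blk a' → a = a' := by
    intro a ha a' ha' x hx hx'
    simp only [hblk, Finset.mem_insert, Finset.mem_singleton] at hx hx'
    have h1 := hψm a ha
    have h2 := hψm a' ha'
    rw [Finset.mem_sdiff] at ha ha' h1 h2
    rcases hx with rfl | rfl
    · rcases hx' with rfl | h3
      · rfl
      · exact absurd ha.1 (by rw [h3]; exact h2.2)
    · rcases hx' with h3 | h3
      · exact absurd ha'.1 (by rw [← h3]; exact h1.2)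
      · exact hψ.injOn (by rw [Finset.mem_coe, Finset.mem_sdiff]; exact ha)
          (by rw [Finset.mem_coe, Finset.mem_sdiff]; exact ha') h3
  have hsup : ((A \ B).image blk).sup id = symmDiff A B := by
    ext x
    rw [Finset.mem_sup, Finset.mem_symmDiff]
    constructor
    · rintro ⟨T, hT, hx⟩
      rw [Finset.mem_image] at hT
      obtain ⟨a, ha, rfl⟩ := hT
      simp only [hblk, id, Finset.mem_insert, Finset.mem_singleton] at hx
      rcases hx with rfl | rfl
      · left; exact Finset.mem_sdiff.1 ha
      · right; exact Finset.mem_sdiff.1 (hψm a ha)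
    · rintro (h1 | h1)
      · exact ⟨blk x, Finset.mem_image_of_mem _ (Finset.mem_sdiff.2 h1), by simp [hblk]⟩
      · obtain ⟨a, ha, hax⟩ := hψ.surjOn (Finset.mem_coe.2 (Finset.mem_sdiff.2 h1))
        exact ⟨blk a, Finset.mem_image_of_mem _ (Finset.mem_coe.1 ha), by simp [hblk, hax]⟩
  refine ⟨⟨(A \ B).image blk, ?_, hsup, ?_⟩, ?_, ?_⟩
  · rw [Finset.supIndep_iff_pairwiseDisjoint]
    intro T hT T' hT' hne
    rw [Finset.mem_coe, Finset.mem_image] at hT hT'
    obtain ⟨a, ha, rfl⟩ := hT
    obtain ⟨a', ha', rfl⟩ := hT'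
    show Disjoint (id (blk a)) (id (blk a'))
    rw [id, id, Finset.disjoint_left]
    intro x hx hx'
    exact hne (by rw [hdisj a ha a' ha' x hx hx'])
  · rw [Finset.mem_image]
    rintro ⟨a, -, h1⟩
    have : a ∈ blk a := by simp [hblk]
    rw [h1] at this
    exact absurd this (Finset.notMem_empty a)
  · intro T hT
    rw [Finset.mem_image] at hT
    obtain ⟨a, -, rfl⟩ := hT
    exact Finset.card_le_two
  · intro Q hQ
    set X : Finset α := (A \ B).filter (fun a => blk a ∈ Q) with hXd
    have h1 : symmDiff A (Q.sup id) = (A \ X) ∪ X.image ψ := by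
      ext x
      rw [Finset.mem_symmDiff, Finset.mem_union, Finset.mem_sdiff, Finset.mem_image]
      have hmem : x ∈ Q.sup id ↔ (x ∈ X ∨ ∃ a ∈ X, ψ a = x) := by
        rw [Finset.mem_sup]
        constructor
        · rintro ⟨T, hT, hx⟩
          obtain ⟨a, ha, rfl⟩ := Finset.mem_image.1 (hQ hT)
          simp only [hblk, id, Finset.mem_insert, Finset.mem_singleton] at hx
          rcases hx with rfl | rfl
          · left; rw [hXd, Finset.mem_filter]; exact ⟨ha, hT⟩
          · right; exact ⟨a, by rw [hXd, Finset.mem_filter]; exact ⟨ha, hT⟩, rfl⟩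
        · rintro (h1 | ⟨a, h1, rfl⟩)
          · rw [hXd, Finset.mem_filter] at h1
            exact ⟨blk x, h1.2, by simp [hblk]⟩
          · rw [hXd, Finset.mem_filter] at h1
            exact ⟨blk a, h1.2, by simp [hblk]⟩
      have hXA : x ∈ X → x ∈ A := fun h => by
        rw [hXd, Finset.mem_filter, Finset.mem_sdiff] at h
        exact h.1.1
      have hψA : (∃ a ∈ X, ψ a = x) → x ∉ A := by
        rintro ⟨a, ha, rfl⟩
        rw [hXd, Finset.mem_filter] at ha
        exact (Finset.mem_sdiff.1 (hψm a ha.1)).2
      rw [hmem]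
      by_cases c1 : x ∈ A <;> by_cases c2 : x ∈ X <;> by_cases c3 : ∃ a ∈ X, ψ a = x <;>
        simp only [c1, c2, c3, true_and, false_and, true_or, or_true, or_false, false_or,
          not_true_eq_false, not_false_eq_true, and_true, and_false, iff_true, iff_false] at hXA hψA ⊢
      all_goals first | exact absurd c1 (hψA trivial) | exact absurd (hXA trivial) c1 | tauto
    rw [h1]
    exact hX X (Finset.filter_subset _ _)

/-- A matroid is strongly base orderable if for any two bases `A`, `B` there is a bijection `φ` from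
`A` to `B` such that `(A ∖ X) ∪ φ (X)` is a base for all `X ⊆ A`. -/
def StronglyBaseOrderable (M : Matroid α) : Prop :=
  ∀ A B : Set α, M.IsBase A → M.IsBase B → ∃ φ : α → α, Set.BijOn φ A B ∧
    ∀ X ⊆ A, M.IsBase ((A \ X) ∪ φ '' X)

/-- The bases of a matroid as a family of finite sets. -/
def Bases (M : Matroid α) : Set (Finset α) := {A | M.IsBase (A : Set α)}

theorem sbo_exchange (M : Matroid α) (hM : StronglyBaseOrderable M) :
    BlockExchange 2 (Bases M) := by
  refine of_pairs _ fun A hA B hB => ?_
  obtain ⟨φ, hφ, hX⟩ := hM A B hA hB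
  have hfix : ∀ a ∈ A, φ a ∈ A → φ a = a := by
    intro a ha hφa
    by_contra hne
    have h1 := hX {a} (by simpa using ha)
    have h2 : ((A : Set α) \ {a}) ∪ φ '' {a} ⊆ A := by
      rw [Set.image_singleton, Set.union_subset_iff]
      exact ⟨Set.sdiff_subset, by simpa using hφa⟩
    have h3 := h1.eq_of_subset_isBase hA h2
    have h4 : a ∈ ((A : Set α) \ {a}) ∪ φ '' {a} := by rw [h3]; exact ha
    rw [Set.image_singleton] at h4
    rcases h4 with h4 | h4
    · exact h4.2 rfl
    · exact hne (Set.mem_singleton_iff.1 h4).symm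
  refine ⟨φ, ⟨?_, ?_, ?_⟩, ?_⟩
  · intro a ha
    rw [Finset.mem_coe, Finset.mem_sdiff] at ha ⊢
    have h1 : φ a ∈ B := Finset.mem_coe.1 (hφ.mapsTo (Finset.mem_coe.2 ha.1))
    refine ⟨h1, fun h2 => ?_⟩
    rw [hfix a ha.1 h2] at h1
    exact ha.2 h1
  · intro a ha a' ha' hab
    rw [Finset.mem_coe, Finset.mem_sdiff] at ha ha'
    exact hφ.injOn (Finset.mem_coe.2 ha.1) (Finset.mem_coe.2 ha'.1) hab
  · intro b hb
    rw [Finset.mem_coe, Finset.mem_sdiff] at hb
    obtain ⟨a, ha, rfl⟩ := hφ.surjOn (Finset.mem_coe.2 hb.1)
    refine ⟨a, ?_, rfl⟩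
    rw [Finset.mem_coe] at ha
    rw [Finset.mem_coe, Finset.mem_sdiff]
    refine ⟨ha, fun haB => ?_⟩
    obtain ⟨a', ha', h1⟩ := hφ.surjOn (Finset.mem_coe.2 haB)
    rw [Finset.mem_coe] at ha'
    have h2 : φ a' = a' := hfix a' ha' (by rw [h1]; exact ha)
    rw [h2] at h1
    subst h1
    exact hb.2 (by rw [h2]; exact ha)
  · intro X hXs
    have h1 := hX X (fun x hx => (Finset.mem_sdiff.1 (hXs (Finset.mem_coe.1 hx))).1)
    show M.IsBase _
    push_cast
    exact h1

/-- The systems of distinct representatives (full transversals) of the relation `R`. -/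
def Transversals {ι : Type} [Fintype ι] (R : ι → α → Prop) : Set (Finset α) :=
  {T | ∃ g : ι → α, Function.Injective g ∧ (∀ i, R i (g i)) ∧ T = univ.image g}

omit [Fintype α] in
theorem paths {ι : Type} [DecidableEq ι] : ∀ (N : ℕ) (I : Finset ι), I.card = N → ∀ f g : ι → α,
    Set.InjOn f I → Set.InjOn g I →
    ∃ ψ : α → α, Set.BijOn ψ (↑(I.image f \ I.image g) : Set α) (↑(I.image g \ I.image f) : Set α) ∧
      ∀ X ⊆ I.image f \ I.image g, ∃ h : ι → α, (∀ i ∈ I, h i = f i ∨ h i = g i) ∧
        Set.InjOn h I ∧ I.image h = (I.image f \ X) ∪ X.image ψ := by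
  intro N
  induction N with
  | zero =>
    intro I hI f g _ _
    rw [Finset.card_eq_zero] at hI
    subst hI
    refine ⟨id, by simp, fun X hX => ⟨f, by simp, by simp, ?_⟩⟩
    have : X = ∅ := by simpa using hX
    subst this
    simp
  | succ N ih =>
    intro I hI f g hf hg
    by_cases hlink : ∃ i ∈ I, ∃ j ∈ I, g i = f j
    · obtain ⟨i, hi, j, hj, hij⟩ := hlink
      have hcard : (I.erase j).card = N := by rw [Finset.card_erase_of_mem hj, hI]; rfl
      -- the function `g'`
      set g' : ι → α := Function.update g i (g j) with hg'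
      have hg'k : ∀ k ∈ I.erase j, k ≠ i → g' k = g k := by
        intro k _ hk
        rw [hg', Function.update_of_ne hk]
      have hg'i : g' i = g j := by rw [hg', Function.update_self]
      have hf' : Set.InjOn f (I.erase j : Finset ι) :=
        hf.mono (by exact_mod_cast Finset.erase_subset j I)
      have hg'inj : Set.InjOn g' (I.erase j : Finset ι) := by
        intro a ha b hb hab
        rw [Finset.mem_coe, Finset.mem_erase] at ha hb
        by_cases hai : a = i <;> by_cases hbi : b = i
        · rw [hai, hbi]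
        · rw [hai, hg'i, hg', Function.update_of_ne hbi] at hab
          exact absurd (hg (Finset.mem_coe.2 hj) (Finset.mem_coe.2 hb.2) hab).symm hb.1
        · rw [hbi, hg'i, hg', Function.update_of_ne hai] at hab
          exact absurd (hg (Finset.mem_coe.2 ha.2) (Finset.mem_coe.2 hj) hab) ha.1
        · rw [hg', Function.update_of_ne hai, Function.update_of_ne hbi] at hab
          exact hg (Finset.mem_coe.2 ha.2) (Finset.mem_coe.2 hb.2) hab
      have hA' : (I.erase j).image f = (I.image f).erase (f j) := by
        ext x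
        simp only [Finset.mem_image, Finset.mem_erase]
        constructor
        · rintro ⟨k, ⟨hk1, hk2⟩, rfl⟩
          exact ⟨fun h => hk1 (hf (Finset.mem_coe.2 hk2) (Finset.mem_coe.2 hj) h), k, hk2, rfl⟩
        · rintro ⟨h1, k, hk, rfl⟩
          exact ⟨k, ⟨fun h => h1 (by rw [h]), hk⟩, rfl⟩
      have hB' : (I.erase j).image g' = (I.image g).erase (f j) := by
        ext x
        simp only [Finset.mem_image, Finset.mem_erase]
        constructor
        · rintro ⟨k, ⟨hk1, hk2⟩, rfl⟩
          by_cases hki : k = i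
          · rw [hki, hg'i]
            refine ⟨fun h => ?_, j, hj, rfl⟩
            rw [← hij] at h
            have := hg (Finset.mem_coe.2 hj) (Finset.mem_coe.2 hi) h
            rw [hki] at hk1
            exact hk1 this.symm
          · rw [hg', Function.update_of_ne hki]
            refine ⟨fun h => ?_, k, hk2, rfl⟩
            rw [← hij] at h
            exact hki (hg (Finset.mem_coe.2 hk2) (Finset.mem_coe.2 hi) h)
        · rintro ⟨h1, k, hk, rfl⟩
          by_cases hkj : k = j
          · subst hkj
            by_cases hki : k = i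
            · exact absurd (by rw [hki]; exact hki ▸ hij) h1
            · exact ⟨i, ⟨fun h => hki h.symm, hi⟩, hg'i⟩
          · by_cases hki : k = i
            · exact absurd (by rw [hki, hij]) h1
            · exact ⟨k, ⟨hkj, hk⟩, by rw [hg', Function.update_of_ne hki]⟩
      obtain ⟨ψ, hψ, hX⟩ := ih (I.erase j) hcard f g' hf' hg'inj
      have hcA : f j ∈ I.image f := Finset.mem_image_of_mem f hj
      have hcB : f j ∈ I.image g := by rw [← hij]; exact Finset.mem_image_of_mem g hi
      have hAB : (I.image f).erase (f j) \ (I.image g).erase (f j) = I.image f \ I.image g := by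
        ext x
        simp only [Finset.mem_sdiff, Finset.mem_erase]
        by_cases hx : x = f j
        · subst hx; simp [hcB]
        · simp [hx]
      have hBA : (I.image g).erase (f j) \ (I.image f).erase (f j) = I.image g \ I.image f := by
        ext x
        simp only [Finset.mem_sdiff, Finset.mem_erase]
        by_cases hx : x = f j
        · subst hx; simp only [ne_eq, not_true_eq_false, false_and, hcA, and_false]
        · simp [hx]
      rw [hA', hB', hAB, hBA] at hψ
      rw [hA', hB', hAB] at hX
      refine ⟨ψ, hψ, fun X hXs => ?_⟩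
      obtain ⟨h', hh1, hh2, hh3⟩ := hX X hXs
      -- the new image
      have hgoal : (I.image f \ X) ∪ X.image ψ = insert (f j) ((I.erase j).image h') := by
        rw [hh3]
        ext x
        simp only [Finset.mem_union, Finset.mem_insert, Finset.mem_sdiff, Finset.mem_erase]
        by_cases hx : x = f j
        · subst hx
          simp only [true_or, iff_true]
          left
          exact ⟨hcA, fun h => (Finset.mem_sdiff.1 (hXs h)).2 hcB⟩
        · simp [hx]
      have hnot : f j ∉ (I.erase j).image h' := by
        rw [hh3, Finset.mem_union, not_or]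
        refine ⟨fun h => (Finset.mem_erase.1 (Finset.mem_sdiff.1 h).1).1 rfl, fun h => ?_⟩
        rw [Finset.mem_image] at h
        obtain ⟨a, ha, hac⟩ := h
        have := hψ.mapsTo (Finset.mem_coe.2 (hXs ha))
        rw [Finset.mem_coe, Finset.mem_sdiff, hac] at this
        exact this.2 hcA
      have hcardh : (insert (f j) ((I.erase j).image h')).card = I.card := by
        rw [Finset.card_insert_of_notMem hnot, Finset.card_image_of_injOn hh2,
          Finset.card_erase_of_mem hj]
        have := Finset.card_pos.2 ⟨j, hj⟩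
        omega
      -- the two cases
      have hfin : ∀ h : ι → α, (∀ i ∈ I, h i = f i ∨ h i = g i) →
          I.image h = insert (f j) ((I.erase j).image h') →
          ∃ h : ι → α, (∀ i ∈ I, h i = f i ∨ h i = g i) ∧
        Set.InjOn h I ∧ I.image h = (I.image f \ X) ∪ X.image ψ := by
        intro h h1 h2
        refine ⟨h, h1, ?_, ?_⟩
        · rw [← Finset.card_image_iff, h2, hcardh]
        · rw [hgoal, h2]
      by_cases hc : i = j ∨ h' i = f i
      · refine hfin (Function.update h' j (f j)) ?_ ?_
        · intro k hk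
          by_cases hkj : k = j
          · subst hkj; rw [Function.update_self]; exact Or.inl rfl
          · rw [Function.update_of_ne hkj]
            have hk' : k ∈ I.erase j := Finset.mem_erase.2 ⟨hkj, hk⟩
            by_cases hki : k = i
            · subst hki
              rcases hc with hc | hc
              · exact absurd hc hkj
              · exact Or.inl hc
            · have := hh1 k hk'
              rwa [hg'k k hk' hki] at this
        · conv_lhs => rw [← Finset.insert_erase hj]
          rw [Finset.image_insert, Function.update_self]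
          congr 1
          refine Finset.image_congr fun k hk => ?_
          rw [Finset.mem_coe, Finset.mem_erase] at hk
          rw [Function.update_of_ne hk.1]
      · push Not at hc
        obtain ⟨hc1, hc2⟩ := hc
        have hi' : i ∈ I.erase j := Finset.mem_erase.2 ⟨hc1, hi⟩
        have hc3 : h' i = g j := by
          have := (hh1 i hi').resolve_left hc2
          rwa [hg'i] at this
        refine hfin (Function.update (Function.update h' i (g i)) j (g j)) ?_ ?_
        · intro k hk
          by_cases hkj : k = j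
          · subst hkj; rw [Function.update_self]; exact Or.inr rfl
          · rw [Function.update_of_ne hkj]
            have hk' : k ∈ I.erase j := Finset.mem_erase.2 ⟨hkj, hk⟩
            by_cases hki : k = i
            · subst hki; rw [Function.update_self]; exact Or.inr rfl
            · rw [Function.update_of_ne hki]
              have := hh1 k hk'
              rwa [hg'k k hk' hki] at this
        · ext x
          rw [Finset.mem_image, Finset.mem_insert, Finset.mem_image]
          constructor
          · rintro ⟨k, hk, rfl⟩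
            by_cases hkj : k = j
            · right
              refine ⟨i, hi', ?_⟩
              rw [hkj, Function.update_self, hc3]
            · rw [Function.update_of_ne hkj]
              by_cases hki : k = i
              · left; rw [hki, Function.update_self, hij]
              · right
                rw [Function.update_of_ne hki]
                exact ⟨k, Finset.mem_erase.2 ⟨hkj, hk⟩, rfl⟩
          · rintro (rfl | ⟨k, hk, rfl⟩)
            · refine ⟨i, hi, ?_⟩
              rw [Function.update_of_ne hc1, Function.update_self, hij]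
            · rw [Finset.mem_erase] at hk
              by_cases hki : k = i
              · refine ⟨j, hj, ?_⟩
                rw [Function.update_self, hki, hc3]
              · refine ⟨k, hk.2, ?_⟩
                rw [Function.update_of_ne hk.1, Function.update_of_ne hki]
    · push Not at hlink
      have hdis : Disjoint (I.image f) (I.image g) := by
        rw [Finset.disjoint_left]
        intro x hx hx'
        rw [Finset.mem_image] at hx hx'
        obtain ⟨j, hj, rfl⟩ := hx
        obtain ⟨i, hi, hij⟩ := hx'
        exact hlink i hi j hj hij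
      have hA : I.image f \ I.image g = I.image f := Finset.sdiff_eq_self_of_disjoint hdis
      have hB : I.image g \ I.image f = I.image g := Finset.sdiff_eq_self_of_disjoint hdis.symm
      rw [hA, hB]
      classical
      set ψ : α → α := fun a => if h : ∃ i ∈ I, f i = a then g h.choose else a with hψ
      have hψf : ∀ i ∈ I, ψ (f i) = g i := by
        intro i hi
        have hex : ∃ k ∈ I, f k = f i := ⟨i, hi, rfl⟩
        simp only [hψ]
        rw [dif_pos hex]
        have := hf (Finset.mem_coe.2 hex.choose_spec.1) (Finset.mem_coe.2 hi) hex.choose_spec.2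
        rw [this]
      refine ⟨ψ, ⟨?_, ?_, ?_⟩, fun X hX => ?_⟩
      · intro a ha
        rw [Finset.mem_coe, Finset.mem_image] at ha ⊢
        obtain ⟨i, hi, rfl⟩ := ha
        exact ⟨i, hi, (hψf i hi).symm⟩
      · intro a ha b hb hab
        rw [Finset.mem_coe, Finset.mem_image] at ha hb
        obtain ⟨i, hi, rfl⟩ := ha
        obtain ⟨k, hk, rfl⟩ := hb
        rw [hψf i hi, hψf k hk] at hab
        rw [hg (Finset.mem_coe.2 hi) (Finset.mem_coe.2 hk) hab]
      · intro b hb
        rw [Finset.mem_coe, Finset.mem_image] at hb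
        obtain ⟨i, hi, rfl⟩ := hb
        exact ⟨f i, Finset.mem_coe.2 (Finset.mem_image_of_mem f hi), hψf i hi⟩
      · refine ⟨fun i => if f i ∈ X then g i else f i, fun i _ => ?_, ?_, ?_⟩
        · by_cases h : f i ∈ X
          · right; simp [h]
          · left; simp [h]
        · intro a ha b hb hab
          simp only at hab
          rw [Finset.mem_coe] at ha hb
          split_ifs at hab with h1 h2 h2
          · exact hg (Finset.mem_coe.2 ha) (Finset.mem_coe.2 hb) hab
          · exact absurd hab (hlink a ha b hb)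
          · exact absurd hab.symm (hlink b hb a ha)
          · exact hf (Finset.mem_coe.2 ha) (Finset.mem_coe.2 hb) hab
        · ext x
          simp only [Finset.mem_image, Finset.mem_union, Finset.mem_sdiff]
          constructor
          · rintro ⟨i, hi, rfl⟩
            by_cases h : f i ∈ X
            · right
              refine ⟨f i, h, ?_⟩
              rw [if_pos h, hψf i hi]
            · left
              rw [if_neg h]
              exact ⟨⟨i, hi, rfl⟩, h⟩
          · rintro (⟨⟨i, hi, rfl⟩, h⟩ | ⟨a, ha, rfl⟩)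
            · exact ⟨i, hi, by rw [if_neg h]⟩
            · obtain ⟨i, hi, rfl⟩ := Finset.mem_image.1 (hX ha)
              exact ⟨i, hi, by rw [if_pos ha, hψf i hi]⟩

theorem transversals_exchange {ι : Type} [Fintype ι] (R : ι → α → Prop) :
    BlockExchange 2 (Transversals R) := by
  classical
  refine of_pairs _ ?_
  rintro _ ⟨f, hf, hRf, rfl⟩ _ ⟨g, hg, hRg, rfl⟩
  obtain ⟨ψ, hψ, hX⟩ := paths _ (univ : Finset ι) rfl f g hf.injOn hg.injOn
  refine ⟨ψ, hψ, fun X hXs => ?_⟩
  obtain ⟨h, h1, h2, h3⟩ := hX X hXs
  refine ⟨h, fun a b hab => h2 (by simp) (by simp) hab, fun i => ?_, h3.symm⟩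
  rcases h1 i (mem_univ i) with h4 | h4
  · rw [h4]; exact hRf i
  · rw [h4]; exact hRg i

end Pool.Agent.H34KM
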