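import Mathlib

/-!
# Rounding inside sets with the cube property: merging of points
-/

set_option autoImplicit false

open Finset

namespace Pool.Agent.H34KM

/-- The vectors lie in the closed Euclidean unit ball of `ℝ^d`. -/
def InBall {n d : ℕ} (v : Fin n → Fin d → ℝ) : Prop := ∀ i, ∑ k, v i k ^ 2 ≤ 1

/-- Some signing of the vectors has value at most `B`. -/
def HasSigning {n d : ℕ} (v : Fin n → Fin d → ℝ) (B : ℝ) : Prop :=
  ∃ ε : Fin n → ℝ, (∀ i, ε i = 1 ∨ ε i = -1) ∧ ∀ k, |∑ i, ε i * v i k| ≤ B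

/-- The cube property with radius `ρ` and at most `n` directions. -/
def CubN {d : ℕ} (S : Set (Fin d → ℝ)) (ρ : ℝ) (n : ℕ∞) : Prop :=
  ∀ p ∈ S, ∀ q ∈ S, ∃ (k : ℕ) (w : Fin k → Fin d → ℝ), (k : ℕ∞) ≤ n ∧
    (∀ i, ∑ c, w i c ^ 2 ≤ ρ ^ 2) ∧
    ∀ ε : Fin k → ℝ, (∀ i, ε i = 1 ∨ ε i = -1) →
      (fun c => (p c + q c) / 2 + ∑ i, ε i * w i c) ∈ S

/-- Signing of a family of vectors of norm at most `ρ` indexed by a finite type. -/
theorem sign_family {d : ℕ} {I : Type*} [Fintype I] (w : I → Fin d → ℝ) (ρ : ℝ) (hρ : 0 < ρ)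
    (B : ℝ) (hB : ∀ u : Fin (Fintype.card I) → Fin d → ℝ, InBall u → HasSigning u B)
    (hw : ∀ i, ∑ c, w i c ^ 2 ≤ ρ ^ 2) :
    ∃ ε : I → ℝ, (∀ i, ε i = 1 ∨ ε i = -1) ∧ ∀ c, |∑ i, ε i * w i c| ≤ ρ * B := by
  obtain ⟨ε, hε, hεB⟩ := hB (fun i c => w ((Fintype.equivFin I).symm i) c / ρ) (fun i => by
    simp_rw [div_pow]
    rw [← Finset.sum_div, div_le_one (by positivity)]
    exact hw _)
  refine ⟨fun i => ε (Fintype.equivFin I i), fun i => hε _, fun c => ?_⟩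
  have h1 : ∑ i, ε (Fintype.equivFin I i) * w i c =
      ρ * ∑ i, ε i * (w ((Fintype.equivFin I).symm i) c / ρ) := by
    rw [Finset.mul_sum]
    refine Fintype.sum_equiv (Fintype.equivFin I) _ _ (fun i => ?_)
    rw [Equiv.symm_apply_apply]
    field_simp
  rw [h1, abs_mul, abs_of_pos hρ]
  exact mul_le_mul_of_nonneg_left (hεB c) hρ.le

/-- Merging `2^m` points of a set with the cube property. -/
theorem merge {d : ℕ} (S : Set (Fin d → ℝ)) (ρ : ℝ) (hρ : 0 < ρ) (n : ℕ∞) (hS : CubN S ρ n)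
    (β : ℕ → ℝ)
    (hβ : ∀ j k : ℕ, (k : ℕ∞) ≤ 2 ^ j * n → ∀ u : Fin k → Fin d → ℝ, InBall u → HasSigning u (β j)) :
    ∀ (m : ℕ) (p : (Fin m → Bool) → Fin d → ℝ), (∀ i, p i ∈ S) →
      ∃ s ∈ S, ∀ c, |s c - (∑ i, p i c) / 2 ^ m| ≤ ρ * ∑ j ∈ range m, β j / 2 ^ j := by
  intro m
  induction m with
  | zero =>
    intro p hp
    refine ⟨p default, hp _, fun c => ?_⟩
    rw [Fintype.sum_subsingleton _ default]
    simp
  | succ m ih =>
    intro p hp
    have hcub := fun i : Fin m → Bool =>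
      hS (p (Fin.cons false i)) (hp _) (p (Fin.cons true i)) (hp _)
    choose k w hk hw hmem using hcub
    have hcard : ((Fintype.card (Σ i : Fin m → Bool, Fin (k i)) : ℕ) : ℕ∞) ≤ 2 ^ m * n := by
      rw [Fintype.card_sigma]
      push_cast
      calc ∑ i : Fin m → Bool, ((Fintype.card (Fin (k i)) : ℕ) : ℕ∞) ≤ ∑ _i : Fin m → Bool, n :=
            Finset.sum_le_sum fun i _ => by rw [Fintype.card_fin]; exact hk i
        _ = 2 ^ m * n := by simp
    obtain ⟨ε, hε, hεB⟩ := sign_family (I := Σ i : Fin m → Bool, Fin (k i))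
      (fun x c => w x.1 x.2 c) ρ hρ (β m) (hβ m _ hcard) (fun x => hw x.1 x.2)
    obtain ⟨s, hs, hsb⟩ := ih (fun i c => (p (Fin.cons false i) c + p (Fin.cons true i) c) / 2 +
      ∑ l, ε ⟨i, l⟩ * w i l c) (fun i => hmem i (fun l => ε ⟨i, l⟩) (fun l => hε _))
    refine ⟨s, hs, fun c => ?_⟩
    have h1 := hsb c
    have h2 := hεB c
    have hsplit : ∑ i : Fin (m + 1) → Bool, p i c =
        ∑ i : Fin m → Bool, (p (Fin.cons false i) c + p (Fin.cons true i) c) := by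
      rw [← (Fin.consEquiv (fun _ : Fin (m + 1) => Bool)).sum_comp]
      rw [Fintype.sum_prod_type_right]
      refine Finset.sum_congr rfl fun i _ => ?_
      rw [Fintype.sum_bool]
      exact add_comm _ _
    have hsum : ∑ i : Fin m → Bool, ((p (Fin.cons false i) c + p (Fin.cons true i) c) / 2 +
        ∑ l, ε ⟨i, l⟩ * w i l c) = (∑ i : Fin (m + 1) → Bool, p i c) / 2 +
        ∑ x : (Σ i : Fin m → Bool, Fin (k i)), ε x * w x.1 x.2 c := by
      rw [Finset.sum_add_distrib, hsplit, Finset.sum_div, Fintype.sum_sigma]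
    rw [hsum] at h1
    rw [Finset.sum_range_succ, mul_add]
    have h3 : s c - (∑ i : Fin (m + 1) → Bool, p i c) / 2 ^ (m + 1) =
        (s c - ((∑ i : Fin (m + 1) → Bool, p i c) / 2 +
          ∑ x : (Σ i : Fin m → Bool, Fin (k i)), ε x * w x.1 x.2 c) / 2 ^ m) +
        (∑ x : (Σ i : Fin m → Bool, Fin (k i)), ε x * w x.1 x.2 c) / 2 ^ m := by
      rw [pow_succ]
      field_simp
      ring
    rw [h3]
    refine (abs_add_le _ _).trans (add_le_add h1 ?_)
    rw [abs_div, abs_of_pos (by positivity : (0:ℝ) < 2 ^ m), ← mul_div_assoc]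
    exact div_le_div_of_nonneg_right h2 (by positivity)

/-- Points of the convex hull are approximated by dyadic averages. -/
theorem dyadic {d : ℕ} (S : Set (Fin d → ℝ)) (x : Fin d → ℝ) (hx : x ∈ convexHull ℝ S) (η : ℝ)
    (hη : 0 < η) : ∃ (m : ℕ) (p : (Fin m → Bool) → Fin d → ℝ), (∀ i, p i ∈ S) ∧
      ∀ c, |(∑ i, p i c) / 2 ^ m - x c| ≤ η := by
  classical
  rw [_root_.convexHull_eq] at hx
  obtain ⟨ι, t, wt, z, hw0, hw1, hz, hcm⟩ := hx
  rw [Finset.centerMass_eq_of_sum_1 _ _ hw1] at hcm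
  -- a distinguished index
  have hne : t.Nonempty := by
    by_contra h
    rw [Finset.not_nonempty_iff_eq_empty] at h
    rw [h] at hw1
    simp at hw1
  obtain ⟨i₀, hi₀⟩ := hne
  -- a bound for the coordinates
  set M : ℝ := ∑ i ∈ t, ∑ c, |z i c| with hM
  have hM0 : 0 ≤ M := Finset.sum_nonneg fun i _ => Finset.sum_nonneg fun c _ => abs_nonneg _
  have hMb : ∀ i ∈ t, ∀ c, |z i c| ≤ M := by
    intro i hi c
    refine le_trans ?_ (Finset.single_le_sum (f := fun i => ∑ c, |z i c|)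
      (fun i _ => Finset.sum_nonneg fun c _ => abs_nonneg _) hi)
    exact Finset.single_le_sum (f := fun c => |z i c|) (fun c _ => abs_nonneg _) (mem_univ c)
  obtain ⟨m, hm⟩ : ∃ m : ℕ, (2 * t.card * M) / η < 2 ^ m := by
    obtain ⟨m, hm⟩ := pow_unbounded_of_one_lt ((2 * t.card * M) / η) (by norm_num : (1:ℝ) < 2)
    exact ⟨m, hm⟩
  set a : ι → ℕ := fun i => ⌊wt i * 2 ^ m⌋₊ with ha
  have hfl : ∀ i ∈ t, (a i : ℝ) ≤ wt i * 2 ^ m ∧ wt i * 2 ^ m < a i + 1 := by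
    intro i hi
    exact ⟨Nat.floor_le (mul_nonneg (hw0 i hi) (by positivity)), Nat.lt_floor_add_one _⟩
  have hsuma : ∑ i ∈ t, a i ≤ 2 ^ m := by
    have h1 : ((∑ i ∈ t, a i : ℕ) : ℝ) ≤ 2 ^ m := by
      push_cast
      calc ∑ i ∈ t, (a i : ℝ) ≤ ∑ i ∈ t, wt i * 2 ^ m := Finset.sum_le_sum fun i hi => (hfl i hi).1
        _ = 2 ^ m := by rw [← Finset.sum_mul, hw1, one_mul]
    exact_mod_cast h1
  set R : ℕ := 2 ^ m - ∑ i ∈ t, a i with hR
  have hRsum : ∑ i ∈ t, a i + R = 2 ^ m := by omega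
  have hRle : (R : ℝ) ≤ t.card := by
    have h1 : ((∑ i ∈ t, a i : ℕ) : ℝ) + R = 2 ^ m := by exact_mod_cast hRsum
    have h2 : (2:ℝ) ^ m ≤ ∑ i ∈ t, ((a i : ℝ) + 1) := by
      calc (2:ℝ) ^ m = ∑ i ∈ t, wt i * 2 ^ m := by rw [← Finset.sum_mul, hw1, one_mul]
        _ ≤ _ := Finset.sum_le_sum fun i hi => (hfl i hi).2.le
    rw [Finset.sum_add_distrib] at h2
    simp only [Finset.sum_const, nsmul_eq_mul, mul_one] at h2
    push_cast at h1
    linarith
  -- the multiset of points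
  have hcard : Fintype.card ((Σ i : t, Fin (a i)) ⊕ Fin R) = Fintype.card (Fin m → Bool) := by
    rw [Fintype.card_sum, Fintype.card_sigma]
    simp only [Fintype.card_fin, Fintype.card_fun, Fintype.card_bool]
    rw [← hRsum, Finset.sum_coe_sort t a]
  obtain ⟨e⟩ := Fintype.card_eq.1 hcard
  refine ⟨m, fun i => Sum.elim (fun y => z y.1) (fun _ => z i₀) (e.symm i), fun i => ?_,
    fun c => ?_⟩
  · show Sum.elim (fun y : (Σ i : t, Fin (a i)) => z y.1) (fun _ => z i₀) (e.symm i) ∈ S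
    rcases e.symm i with y | y
    · exact hz _ y.1.2
    · exact hz _ hi₀
  · have h1 : ∑ i, Sum.elim (fun y : (Σ i : t, Fin (a i)) => z y.1) (fun _ => z i₀) (e.symm i) c =
        ∑ i ∈ t, (a i : ℝ) * z i c + R * z i₀ c := by
      rw [e.symm.sum_comp (fun y =>
        Sum.elim (fun y : (Σ i : t, Fin (a i)) => z y.1) (fun _ => z i₀) y c)]
      rw [Fintype.sum_sum_type, Fintype.sum_sigma]
      simp only [Sum.elim_inl, Sum.elim_inr, Finset.sum_const, Finset.card_univ, Fintype.card_fin,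
        nsmul_eq_mul]
      rw [Finset.sum_coe_sort t (fun i => (a i : ℝ) * z i c)]
    rw [h1]
    have h2 : x c = ∑ i ∈ t, wt i * z i c := by
      rw [← hcm]
      simp [Finset.sum_apply]
    have h3 : (∑ i ∈ t, (a i : ℝ) * z i c + R * z i₀ c) / 2 ^ m - x c =
        (∑ i ∈ t, ((a i : ℝ) - wt i * 2 ^ m) * z i c + R * z i₀ c) / 2 ^ m := by
      rw [h2]
      have : ∑ i ∈ t, ((a i : ℝ) - wt i * 2 ^ m) * z i c =
          ∑ i ∈ t, (a i : ℝ) * z i c - 2 ^ m * ∑ i ∈ t, wt i * z i c := by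
        rw [Finset.mul_sum, ← Finset.sum_sub_distrib]
        exact Finset.sum_congr rfl fun i _ => by ring
      rw [this]
      field_simp
      ring
    rw [h3, abs_div, abs_of_pos (by positivity : (0:ℝ) < 2 ^ m), div_le_iff₀ (by positivity)]
    have h4 : |∑ i ∈ t, ((a i : ℝ) - wt i * 2 ^ m) * z i c| ≤ t.card * M := by
      refine (Finset.abs_sum_le_sum_abs _ _).trans ?_
      calc ∑ i ∈ t, |((a i : ℝ) - wt i * 2 ^ m) * z i c| ≤ ∑ _i ∈ t, M := by
            refine Finset.sum_le_sum fun i hi => ?_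
            rw [abs_mul]
            have h5 := hfl i hi
            have h6 : |(a i : ℝ) - wt i * 2 ^ m| ≤ 1 := by
              rw [abs_le]; constructor <;> linarith
            calc |(a i : ℝ) - wt i * 2 ^ m| * |z i c| ≤ 1 * M :=
                  mul_le_mul h6 (hMb i hi c) (abs_nonneg _) (by norm_num)
              _ = M := one_mul _
        _ = t.card * M := by simp
    have h7 : |(R : ℝ) * z i₀ c| ≤ t.card * M := by
      rw [abs_mul, abs_of_nonneg (Nat.cast_nonneg R)]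
      exact mul_le_mul hRle (hMb i₀ hi₀ c) (abs_nonneg _) (by positivity)
    refine (abs_add_le _ _).trans ?_
    rw [div_lt_iff₀ hη] at hm
    linarith

/-- Rounding: the general bound. -/
theorem rounding {d : ℕ} (S : Set (Fin d → ℝ)) (ρ : ℝ) (hρ : 0 < ρ) (n : ℕ∞) (hS : CubN S ρ n)
    (β : ℕ → ℝ)
    (hβ : ∀ j k : ℕ, (k : ℕ∞) ≤ 2 ^ j * n → ∀ u : Fin k → Fin d → ℝ, InBall u → HasSigning u (β j))
    (T : ℝ) (hT : ∀ m, ∑ j ∈ range m, β j / 2 ^ j ≤ T) (x : Fin d → ℝ) (hx : x ∈ convexHull ℝ S)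
    (η : ℝ) (hη : 0 < η) : ∃ s ∈ S, ∀ c, |s c - x c| ≤ ρ * T + η := by
  obtain ⟨m, p, hp, hpx⟩ := dyadic S x hx η hη
  obtain ⟨s, hs, hsb⟩ := merge S ρ hρ n hS β hβ m p hp
  refine ⟨s, hs, fun c => ?_⟩
  have h1 := hsb c
  have h2 := hpx c
  have h3 : s c - x c = (s c - (∑ i, p i c) / 2 ^ m) + ((∑ i, p i c) / 2 ^ m - x c) := by ring
  rw [h3]
  refine (abs_add_le _ _).trans (add_le_add (h1.trans ?_) h2)
  exact mul_le_mul_of_nonneg_left (hT m) hρ.le

end Pool.Agent.H34KM
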